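import Pool.Agent.H50.HYQ.Prod

set_option autoImplicit false

/-!
Interval labellings of split graphs and of graphs near them (helper33).
-/

namespace Pool.Agent.H33HY

open Finset Pool.Agent.H50.HYQ

theorem place {α : Type} [DecidableEq α] (N : Finset α) (M : ℕ) (hN : N.card ≤ M) (bad : ℕ → Finset α)
    (hbad : ∀ s < M, (bad s).card + s + 1 ≤ M) :
    ∃ g : α → ℕ, (∀ u ∈ N, g u < M ∧ u ∉ bad (g u)) ∧ Set.InjOn g N := by
  classical
  obtain ⟨n, hn⟩ : ∃ n, n = N.card := ⟨_, rfl⟩
  let t : Fin n → Finset α := fun i => N \ bad (M - n + i)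
  have hcard : ∀ i : Fin n, (i : ℕ) + 1 ≤ (t i).card := by
    intro i
    have h1 : N.card - (bad (M - n + i)).card ≤ (t i).card := Finset.le_card_sdiff _ _
    have h3 := i.2
    have h2 := hbad (M - n + i) (by omega)
    omega
  have hall : ∀ s : Finset (Fin n), s.card ≤ (s.biUnion t).card := by
    intro s
    rcases s.eq_empty_or_nonempty with rfl | hs
    · simp
    · have h1 : s.card ≤ ((s.max' hs : Fin n) : ℕ) + 1 := by
        have h2 : s ⊆ Finset.Iic (s.max' hs) := fun i hi => Finset.mem_Iic.2 (s.le_max' i hi)
        have h3 := card_le_card h2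
        rwa [Fin.card_Iic] at h3
      exact h1.trans ((hcard _).trans (card_le_card (subset_biUnion_of_mem t (s.max'_mem hs))))
  obtain ⟨f, hf, hft⟩ := (Finset.all_card_le_biUnion_card_iff_exists_injective t).1 hall
  have himg : Finset.univ.image f = N := by
    apply Finset.eq_of_subset_of_card_le
    · intro u hu
      obtain ⟨i, -, rfl⟩ := mem_image.1 hu
      exact (mem_sdiff.1 (hft i)).1
    · rw [card_image_of_injective _ hf, card_univ, Fintype.card_fin, hn]
  have hex : ∀ u ∈ N, ∃ i, f i = u := by
    intro u hu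
    rw [← himg] at hu
    obtain ⟨i, -, hi⟩ := mem_image.1 hu
    exact ⟨i, hi⟩
  refine ⟨fun u => if h : ∃ i, f i = u then M - n + (h.choose : ℕ) else 0, fun u hu => ?_,
    fun u hu u' hu' he => ?_⟩
  · have h := hex u hu
    simp only [dif_pos h]
    have h1 := h.choose_spec
    have h2 := hft h.choose
    rw [h1] at h2
    exact ⟨by have := h.choose.2; omega, (mem_sdiff.1 h2).2⟩
  · have h := hex u hu
    have h' := hex u' hu'
    simp only [dif_pos h, dif_pos h'] at he
    have h3 : h.choose = h'.choose := Fin.ext (by omega)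
    rw [← h.choose_spec, h3, h'.choose_spec]

theorem stair {V : Type} [DecidableEq V] (K : Finset V) (x : V → ℕ) (hx : Set.InjOn x K)
    (N : V → Finset V) (M : ℕ) (hN : ∀ v ∈ K, (N v).card ≤ M) (j : ℕ) :
    ∃ l : V → V → ℕ, (∀ v ∈ K, x v < j → ∀ u ∈ N v, x v ≤ l v u ∧ l v u < x v + M) ∧
      (∀ v ∈ K, x v < j → Set.InjOn (l v) (N v)) ∧
      (∀ v ∈ K, ∀ v' ∈ K, x v < j → x v' < j → v ≠ v' → ∀ u, u ∈ N v → u ∈ N v' →
        l v u ≠ l v' u) := by
  classical
  induction j with
  | zero => exact ⟨fun _ _ => 0, by simp, by simp, by simp⟩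
  | succ j ih =>
    obtain ⟨l, h1, h2, h3⟩ := ih
    by_cases h : ∃ v ∈ K, x v = j
    · obtain ⟨v0, hv0, hx0⟩ := h
      let bad : ℕ → Finset V := fun s =>
        (N v0).filter (fun u => ∃ v' ∈ K, x v' < j ∧ u ∈ N v' ∧ l v' u = j + s)
      have hbad : ∀ s < M, (bad s).card + s + 1 ≤ M := by
        intro s hs
        have hex : ∀ u, ∃ v', u ∈ bad s → (v' ∈ K ∧ x v' < j ∧ u ∈ N v' ∧ l v' u = j + s) := by
          intro u
          by_cases hu : u ∈ bad s
          · obtain ⟨v', hv', h4⟩ := (mem_filter.1 hu).2
            exact ⟨v', fun _ => ⟨hv', h4⟩⟩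
          · exact ⟨u, fun h => absurd h hu⟩
        choose w hw using hex
        have hle : (bad s).card ≤ (Finset.Ico (j + s + 1 - M) j).card := by
          apply card_le_card_of_injOn (fun u => x (w u))
          · intro u hu
            obtain ⟨a1, a2, a3, a4⟩ := hw u hu
            have a5 := (h1 _ a1 a2 u a3).2
            simp only [Finset.coe_Ico, Set.mem_Ico]
            omega
          · intro u hu u' hu' he
            obtain ⟨a1, a2, a3, a4⟩ := hw u hu
            obtain ⟨b1, b2, b3, b4⟩ := hw u' hu'
            have h5 : w u = w u' := hx a1 b1 he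
            rw [← h5] at b3 b4
            exact h2 _ a1 a2 a3 b3 (a4.trans b4.symm)
        rw [Nat.card_Ico] at hle
        omega
      obtain ⟨g, hg1, hg2⟩ := place (N v0) M (hN v0 hv0) bad hbad
      have hlt : ∀ v ∈ K, x v < j + 1 → v ≠ v0 → x v < j := by
        intro v hv hxv hne
        have h4 : x v ≠ j := fun h5 => hne (hx hv hv0 (h5.trans hx0.symm))
        omega
      refine ⟨fun v u => if v = v0 then j + g u else l v u, ?_, ?_, ?_⟩
      · intro v hv hxv u hu
        by_cases hvv : v = v0
        · subst hvv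
          simp only [if_true]
          have := (hg1 u hu).1
          omega
        · simp only [if_neg hvv]
          exact h1 v hv (hlt v hv hxv hvv) u hu
      · intro v hv hxv
        by_cases hvv : v = v0
        · subst hvv
          intro u hu u' hu' he
          simp only [if_true] at he
          exact hg2 hu hu' (by omega)
        · intro u hu u' hu' he
          simp only [if_neg hvv] at he
          exact h2 v hv (hlt v hv hxv hvv) hu hu' he
      · intro v hv v' hv' hxv hxv' hne u hu hu'
        by_cases hvv : v = v0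
        · have hvv' : v' ≠ v0 := fun h4 => hne (hvv.trans h4.symm)
          have h4 := hlt v' hv' hxv' hvv'
          subst hvv
          simp only [if_true, if_neg hvv']
          intro he
          refine (hg1 u hu).2 (mem_filter.2 ⟨hu, v', hv', h4, hu', he.symm⟩)
        · have h4 := hlt v hv hxv hvv
          by_cases hvv' : v' = v0
          · subst hvv'
            simp only [if_true, if_neg hvv]
            intro he
            refine (hg1 u hu').2 (mem_filter.2 ⟨hu', v, hv, h4, hu, he⟩)
          · have h5 := hlt v' hv' hxv' hvv'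
            simp only [if_neg hvv, if_neg hvv']
            exact h3 v hv v' hv' h4 h5 hne u hu hu'
    · have hlt : ∀ v ∈ K, x v < j + 1 → x v < j := by
        intro v hv hxv
        have h4 : x v ≠ j := fun h5 => h ⟨v, hv, h5⟩
        omega
      exact ⟨l, fun v hv hxv => h1 v hv (hlt v hv hxv), fun v hv hxv => h2 v hv (hlt v hv hxv),
        fun v hv v' hv' hxv hxv' => h3 v hv v' hv' (hlt v hv hxv) (hlt v' hv' hxv')⟩

/-- the properties of a labelling of the edges in `B` -/
def Good {V : Type} (G : SimpleGraph V) (x : V → ℕ) (D : ℕ) (B : Set (Sym2 V)) (e : Sym2 V → ℕ) : Prop :=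
  (∀ u v, G.Adj u v → s(u, v) ∈ B → x u ≤ e s(u, v) ∧ e s(u, v) ≤ x u + D) ∧
  (∀ u v w, G.Adj u v → G.Adj u w → v ≠ w → s(u, v) ∈ B → s(u, w) ∈ B → e s(u, v) ≠ e s(u, w))

theorem greedy {V : Type} [Fintype V] [DecidableEq V] (G : SimpleGraph V) [DecidableRel G.Adj]
    (x : V → ℕ) (D : ℕ) (B : Set (Sym2 V)) (e : Sym2 V → ℕ) (he : Good G x D B e)
    (hdeg : ∀ u v, G.Adj u v → s(u, v) ∉ B →
      G.degree u + G.degree v + (max (x u) (x v) - min (x u) (x v)) ≤ D + 2)
    (S : Finset (Sym2 V)) : ∃ e' : Sym2 V → ℕ, Good G x D (B ∪ S) e' := by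
  classical
  induction S using Finset.induction_on with
  | empty => exact ⟨e, by simpa using he⟩
  | insert z S hz ih =>
    obtain ⟨e', h1, h2⟩ := ih
    by_cases hzB : z ∈ B
    · refine ⟨e', ?_⟩
      have h3 : B ∪ ((insert z S : Finset (Sym2 V)) : Set (Sym2 V)) = B ∪ S := by
        ext y
        simp only [Set.mem_union, Finset.mem_coe, Finset.mem_insert]
        constructor
        · rintro (h | rfl | h)
          · exact Or.inl h
          · exact Or.inl hzB
          · exact Or.inr h
        · rintro (h | h)
          · exact Or.inl h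
          · exact Or.inr (Or.inr h)
      rw [h3]
      exact ⟨h1, h2⟩
    by_cases hzE : z ∈ G.edgeSet
    swap
    · have h3 : ∀ u v, G.Adj u v → s(u, v) ∈ B ∪ ((insert z S : Finset (Sym2 V)) : Set (Sym2 V)) →
          s(u, v) ∈ B ∪ (S : Set (Sym2 V)) := by
        intro u v huv h
        simp only [Set.mem_union, Finset.mem_coe, Finset.mem_insert] at h ⊢
        rcases h with h | h | h
        · exact Or.inl h
        · exact absurd ((SimpleGraph.mem_edgeSet G).2 huv) (by rw [h]; exact hzE)
        · exact Or.inr h
      exact ⟨e', fun u v huv h => h1 u v huv (h3 u v huv h),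
        fun u v w huv huw hvw h h' => h2 u v w huv huw hvw (h3 u v huv h) (h3 u w huw h')⟩
    induction z using Sym2.ind with
    | _ a b =>
      have hab : G.Adj a b := (SimpleGraph.mem_edgeSet G).1 hzE
      have hd := hdeg a b hab hzB
      let used : V → V → Finset ℕ := fun c d => ((G.neighborFinset c).erase d).image fun w => e' s(c, w)
      have hused : ∀ c d, G.Adj c d → (used c d).card + 1 ≤ G.degree c := by
        intro c d hcd
        have h3 : (used c d).card ≤ ((G.neighborFinset c).erase d).card := card_image_le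
        have h4 := Finset.card_erase_add_one ((SimpleGraph.mem_neighborFinset G c d).2 hcd)
        rw [SimpleGraph.card_neighborFinset_eq_degree] at h4
        omega
      have hu1 := hused a b hab
      have hu2 := hused b a hab.symm
      have hne : (Icc (max (x a) (x b)) (min (x a) (x b) + D) \ (used a b ∪ used b a)).Nonempty := by
        rw [← Finset.card_pos]
        have h3 := Finset.le_card_sdiff (used a b ∪ used b a) (Icc (max (x a) (x b)) (min (x a) (x b) + D))
        have h4 := Finset.card_union_le (used a b) (used b a)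
        rw [Nat.card_Icc] at h3
        have h5 : min (x a) (x b) ≤ max (x a) (x b) := min_le_max
        omega
      obtain ⟨t, ht⟩ := hne
      rw [mem_sdiff, mem_Icc, mem_union] at ht
      obtain ⟨⟨ht1, ht2⟩, ht3⟩ := ht
      push Not at ht3
      have ha1 : x a ≤ max (x a) (x b) := le_max_left _ _
      have hb1 : x b ≤ max (x a) (x b) := le_max_right _ _
      have ha2 : min (x a) (x b) ≤ x a := min_le_left _ _
      have hb2 : min (x a) (x b) ≤ x b := min_le_right _ _
      have hold : ∀ u v, s(u, v) ∈ B ∪ ((insert s(a, b) S : Finset (Sym2 V)) : Set (Sym2 V)) →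
          s(u, v) ≠ s(a, b) → s(u, v) ∈ B ∪ (S : Set (Sym2 V)) := by
        intro u v h hne
        simp only [Set.mem_union, Finset.mem_coe, Finset.mem_insert] at h ⊢
        rcases h with h | h | h
        · exact Or.inl h
        · exact absurd h hne
        · exact Or.inr h
      have hnew : ∀ u v w, G.Adj u w → v ≠ w → s(u, v) = s(a, b) → t ≠ e' s(u, w) := by
        intro u v w huw hvw h he
        rcases Sym2.eq_iff.1 h with ⟨rfl, rfl⟩ | ⟨rfl, rfl⟩
        · exact ht3.1 (mem_image.2 ⟨w, mem_erase.2 ⟨hvw.symm,
            (SimpleGraph.mem_neighborFinset G _ _).2 huw⟩, he.symm⟩)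
        · exact ht3.2 (mem_image.2 ⟨w, mem_erase.2 ⟨hvw.symm,
            (SimpleGraph.mem_neighborFinset G _ _).2 huw⟩, he.symm⟩)
      refine ⟨Function.update e' s(a, b) t, ?_, ?_⟩
      · intro u v huv h
        by_cases hs : s(u, v) = s(a, b)
        · rw [hs, Function.update_self]
          rcases Sym2.eq_iff.1 hs with ⟨rfl, rfl⟩ | ⟨rfl, rfl⟩
          · omega
          · omega
        · rw [Function.update_of_ne hs]
          exact h1 u v huv (hold u v h hs)
      · intro u v w huv huw hvw h h'
        by_cases hs : s(u, v) = s(a, b)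
        · by_cases hs' : s(u, w) = s(a, b)
          · exact absurd (Sym2.congr_right.1 (hs.trans hs'.symm)) hvw
          · rw [hs, Function.update_self, Function.update_of_ne hs']
            exact hnew u v w huw hvw hs
        · by_cases hs' : s(u, w) = s(a, b)
          · rw [hs', Function.update_self, Function.update_of_ne hs]
            exact (hnew u w v huv hvw.symm hs').symm
          · rw [Function.update_of_ne hs, Function.update_of_ne hs']
            exact h2 u v w huv huw hvw (hold u v h hs) (hold u w h' hs')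

theorem main {V : Type} [Fintype V] [DecidableEq V] (G : SimpleGraph V) [DecidableRel G.Adj]
    (K : Finset V) (x : V → ℕ) (k D r : ℕ) (hx : Set.InjOn x K) (hxk : ∀ v ∈ K, x v < k)
    (hr : ∀ v, x v ≤ r) (hxJ : ∀ u, u ∉ K → x u ≤ k)
    (hKJ : ∀ u v, G.Adj u v → v ∈ K → u ∉ K → x v < x u)
    (hd : ∀ v ∈ K, k + ((G.neighborFinset v).filter (fun u => u ∉ K)).card ≤ D + 1)
    (hJ : ∀ u v, G.Adj u v → u ∉ K → v ∉ K → x u ≠ x v ∧
      G.degree u + G.degree v + (max (x u) (x v) - min (x u) (x v)) ≤ D + 2) : IL G D r := by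
  classical
  obtain ⟨l, h1, h2, h3⟩ := stair K x hx (fun v => (G.neighborFinset v).filter (fun u => u ∉ K))
    (D + 1 - k) (fun v hv => by have := hd v hv; omega) k
  have hmem : ∀ u v, G.Adj u v → v ∉ K → v ∈ (G.neighborFinset u).filter (fun u => u ∉ K) :=
    fun u v huv hv => mem_filter.2 ⟨(SimpleGraph.mem_neighborFinset G _ _).2 huv, hv⟩
  let F : V → V → ℕ := fun u v => if u ∈ K then (if v ∈ K then x u + x v else k + l u v)
    else (if v ∈ K then k + l v u else 0)
  have hF : ∀ u v, F u v = F v u := by
    intro u v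
    by_cases hu : u ∈ K <;> by_cases hv : v ∈ K
    · simp only [F, if_pos hu, if_pos hv]
      exact Nat.add_comm _ _
    · simp only [F, if_pos hu, if_neg hv]
    · simp only [F, if_neg hu, if_pos hv]
    · simp only [F, if_neg hu, if_neg hv]
  let B : Set (Sym2 V) := {z | ∃ v ∈ K, v ∈ z}
  have hB : ∀ u v, s(u, v) ∈ B → u ∈ K ∨ v ∈ K := by
    rintro u v ⟨w, hw, hwz⟩
    rcases Sym2.mem_iff.1 hwz with rfl | rfl
    · exact Or.inl hw
    · exact Or.inr hw
  have hgood : Good G x D B (fun z => Sym2.lift ⟨F, hF⟩ z) := by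
    constructor
    · intro u v huv hb
      simp only [Sym2.lift_mk]
      by_cases hu : u ∈ K
      · by_cases hv : v ∈ K
        · simp only [F, if_pos hu, if_pos hv]
          have a1 := hxk v hv
          have a2 := hd v hv
          omega
        · simp only [F, if_pos hu, if_neg hv]
          have a1 := h1 u hu (hxk u hu) v (hmem u v huv hv)
          have a2 := hd u hu
          omega
      · have hv : v ∈ K := (hB u v hb).resolve_left hu
        simp only [F, if_neg hu, if_pos hv]
        have a1 := h1 v hv (hxk v hv) u (hmem v u huv.symm hu)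
        have a2 := hd v hv
        have a3 := hKJ u v huv hv hu
        have a4 := hxJ u hu
        omega
    · intro u v w huv huw hvw hb hb'
      simp only [Sym2.lift_mk]
      by_cases hu : u ∈ K
      · by_cases hv : v ∈ K
        · by_cases hw : w ∈ K
          · simp only [F, if_pos hu, if_pos hv, if_pos hw]
            intro he
            exact hvw (hx hv hw (by omega))
          · simp only [F, if_pos hu, if_pos hv, if_neg hw]
            have a1 := h1 u hu (hxk u hu) w (hmem u w huw hw)
            have a2 := hxk v hv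
            omega
        · by_cases hw : w ∈ K
          · simp only [F, if_pos hu, if_neg hv, if_pos hw]
            have a1 := h1 u hu (hxk u hu) v (hmem u v huv hv)
            have a2 := hxk w hw
            omega
          · simp only [F, if_pos hu, if_neg hv, if_neg hw]
            intro he
            exact hvw (h2 u hu (hxk u hu) (hmem u v huv hv) (hmem u w huw hw) (by omega))
      · have hv : v ∈ K := (hB u v hb).resolve_left hu
        have hw : w ∈ K := (hB u w hb').resolve_left hu
        simp only [F, if_neg hu, if_pos hv, if_pos hw]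
        have a1 := h3 v hv w hw (hxk v hv) (hxk w hw) hvw u (hmem v u huv.symm hu)
          (hmem w u huw.symm hu)
        omega
  have hBn : ∀ u v, s(u, v) ∉ B → u ∉ K ∧ v ∉ K := fun u v h =>
    ⟨fun hu => h ⟨u, hu, Sym2.mem_mk_left _ _⟩, fun hv => h ⟨v, hv, Sym2.mem_mk_right _ _⟩⟩
  obtain ⟨e, he1, he2⟩ := greedy G x D B _ hgood
    (fun u v huv h => (hJ u v huv (hBn u v h).1 (hBn u v h).2).2) Finset.univ
  have hall : ∀ z : Sym2 V, z ∈ B ∪ ((Finset.univ : Finset (Sym2 V)) : Set (Sym2 V)) :=
    fun z => Or.inr (by simp)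
  refine ⟨x, e, hr, ?_, fun u v w huv huw hvw => he2 u v w huv huw hvw (hall _) (hall _),
    fun u v huv => he1 u v huv (hall _)⟩
  intro u v huv
  by_cases hu : u ∈ K
  · by_cases hv : v ∈ K
    · exact fun he => huv.ne (hx hu hv he)
    · exact (hKJ v u huv.symm hu hv).ne
  · by_cases hv : v ∈ K
    · exact (hKJ u v huv hv hu).ne'
    · exact (hJ u v huv hu hv).1

end Pool.Agent.H33HY
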